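import Pool.Agent.H50.ODG.Targets

/-!
# Base points in a Coxeter chamber
-/

set_option autoImplicit false

namespace Pool.Agent.H94.ODG.CHV

open Pool.Agent.H57.CP Pool.Agent.H39.TO Pool.Agent.H39.OD Pool.Agent.H50.ODG

theorem fin3 (i j k l : Fin 3) (hij : i ≠ j) (hik : i ≠ k) (hjk : j ≠ k) : l = i ∨ l = j ∨ l = k := by
  revert i j k l
  decide

theorem gam_range {M : CoxeterMatrix (Fin 3)} {al : Fin 3 → V4} {σ : M.Group →* Module.End ℝ V4}
    (hs : Sg M al σ) : ∀ g ∈ Gam (al 0) (al 1) (al 2), ∃ w, σ w = g := by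
  intro g hg
  unfold Gam at hg
  induction hg using Submonoid.closure_induction with
  | mem x hx =>
    simp only [Set.mem_insert_iff, Set.mem_singleton_iff] at hx
    rcases hx with h | h | h
    · exact ⟨ss M 0, by rw [hs 0, h]⟩
    · exact ⟨ss M 1, by rw [hs 1, h]⟩
    · exact ⟨ss M 2, by rw [hs 2, h]⟩
  | one => exact ⟨1, map_one σ⟩
  | mul x y _ _ hx hy =>
    obtain ⟨w, rfl⟩ := hx
    obtain ⟨w', rfl⟩ := hy
    exact ⟨w * w', map_mul σ w w'⟩

theorem stab {M : CoxeterMatrix (Fin 3)} {al : Fin 3 → V4} {σ : M.Group →* Module.End ℝ V4}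
    (hs : Sg M al σ) (x : V4) (i j k : Fin 3) (hij : i ≠ j) (hik : i ≠ k) (hjk : j ≠ k)
    (hk : mk x (al k) < 0) (w : M.Group)
    (hw : w ∈ Subgroup.closure {s | ∃ i, mk x (al i) = 0 ∧ s = ss M i}) :
    σ w ∈ C2 (al i) (al j) := by
  have key : σ w ∈ C2 (al i) (al j) ∧ σ w⁻¹ ∈ C2 (al i) (al j) := by
    induction hw using Subgroup.closure_induction with
    | mem s hs' =>
      obtain ⟨l, hl, rfl⟩ := hs'
      have hinv : (ss M l)⁻¹ = ss M l := M.toCoxeterSystem.inv_simple l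
      have hmem : σ (ss M l) ∈ C2 (al i) (al j) := by
        rw [hs l]
        apply Submonoid.subset_closure
        rcases fin3 i j k l hij hik hjk with h | h | h
        · rw [h]; exact Or.inl rfl
        · rw [h]; exact Or.inr rfl
        · rw [h] at hl; exact absurd hl (ne_of_lt hk)
      rw [hinv]
      exact ⟨hmem, hmem⟩
    | one =>
      rw [inv_one, map_one]
      exact ⟨Submonoid.one_mem _, Submonoid.one_mem _⟩
    | mul a b _ _ ha hb =>
      rw [mul_inv_rev, map_mul, map_mul]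
      exact ⟨Submonoid.mul_mem _ ha.1 hb.1, Submonoid.mul_mem _ hb.2 ha.2⟩
    | inv a _ ha =>
      rw [inv_inv]
      exact ⟨ha.2, ha.1⟩
  exact key.1

theorem cham {al : Fin 3 → V4} (x : V4) (i j k : Fin 3) (hij : i ≠ j) (hik : i ≠ k) (hjk : j ≠ k)
    (hi : mk x (al i) = 0) (hj : mk x (al j) = 0) (hk : mk x (al k) < 0) : ∀ l, mk x (al l) ≤ 0 := by
  intro l
  rcases fin3 i j k l hij hik hjk with h | h | h
  · rw [h]; exact hi.le
  · rw [h]; exact hj.le
  · rw [h]; exact hk.le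

theorem pf_CHV (hREP : T_REP) (_hSGE : T_SGE) (hCHM : T_CHM) (hDSW : T_DSW) (_hDIF : T_DIF) : T_CHV := by
  intro M al hN x x' i j k i' j' k' hij hik hjk hij' hik' hjk' hM hM' hxi hxj hxk hyi hyj hyk hne
  obtain ⟨σ, hs⟩ := hREP M al hN
  have hx := cham x.1 i j k hij hik hjk hxi hxj hxk
  have hy := cham x'.1 i' j' k' hij' hik' hjk' hyi hyj hyk
  have hne' : ∀ w, σ w x.1 ≠ x'.1 := by
    intro w h
    have h1 := (hCHM M al σ hN hs w x.1 hx (by rw [h]; exact hy)).1
    apply hne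
    apply Subtype.ext
    rw [← h, h1]
  have hne'' : ∀ w, σ w x'.1 ≠ x.1 := by
    intro w h
    apply hne' w⁻¹
    rw [← h]
    rw [← Module.End.mul_apply, ← map_mul, inv_mul_cancel, map_one]
    rfl
  refine ⟨?_, ?_, ?_, ?_⟩
  · intro g hg hgx
    obtain ⟨w, rfl⟩ := gam_range hs g hg
    have h1 := (hCHM M al σ hN hs w x.1 hx (by rw [hgx]; exact hx)).2
    exact stab hs x.1 i j k hij hik hjk hxk w h1
  · intro g hg hgx
    obtain ⟨w, rfl⟩ := gam_range hs g hg
    have h1 := (hCHM M al σ hN hs w x'.1 hy (by rw [hgx]; exact hy)).2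
    exact stab hs x'.1 i' j' k' hij' hik' hjk' hyk w h1
  · intro g hg
    obtain ⟨w, rfl⟩ := gam_range hs g hg
    exact hne' w
  · obtain ⟨e1, he1, h1⟩ := hDSW M al σ hN hs i j k hij hik hjk hM x x hxi hxj hxk hx
    obtain ⟨e2, he2, h2⟩ := hDSW M al σ hN hs i j k hij hik hjk hM x x' hxi hxj hxk hy
    obtain ⟨e3, he3, h3⟩ := hDSW M al σ hN hs i' j' k' hij' hik' hjk' hM' x' x' hyi hyj hyk hy
    refine ⟨min e1 (min e2 e3), lt_min he1 (lt_min he2 he3), ?_⟩
    intro g hg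
    obtain ⟨w, rfl⟩ := gam_range hs g hg
    have m1 : min e1 (min e2 e3) ≤ e1 := min_le_left _ _
    have m2 : min e1 (min e2 e3) ≤ e2 := (min_le_right _ _).trans (min_le_left _ _)
    have m3 : min e1 (min e2 e3) ≤ e3 := (min_le_right _ _).trans (min_le_right _ _)
    refine ⟨fun h => ?_, fun h => ?_, ?_⟩
    · have := h1 w h
      linarith
    · have := h3 w h
      linarith
    · have := h2 w (hne'' w)
      linarith

end Pool.Agent.H94.ODG.CHV
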