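import Pool.Agent.H50.ODG.Targets

/-!
# Chambers: base points for three mirrors with angles `π / q`, `π / q'`, `π / m`
-/

set_option autoImplicit false

namespace Pool.Agent.H94.ODG.XL1

open Pool.Agent.H57.CP Pool.Agent.H39.TO Pool.Agent.H39.OD Pool.Agent.H50.ODG

theorem cn_inv (n : ℕ) : cn (1 / n) = Real.cos (Real.pi / n) := by
  unfold cn
  congr 1
  push_cast
  ring

theorem pf_XL1 (hCHV : T_CHV) (hNR3 : T_NR3) (hCFI : T_CFI) : T_XL1 := by
  intro q q' m x x' n0 n1 n2 hq hq' hm hC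
  obtain ⟨hli, hne, -, -, -⟩ := hCFI _ _ _ _ _ _ _ _ hC
  obtain ⟨M, hN, h01, h02, h12⟩ := hNR3 m q q' n0 n1 n2 hm hq hq' hC.u0 hC.u1 hC.u2
    (by rw [hC.e01, cn_inv]) (by rw [hC.e02, cn_inv]) (by rw [hC.e12, cn_inv]) hli
  exact hCHV M ![n0, n1, n2] hN x x' 0 2 1 1 2 0 (by decide) (by decide) (by decide) (by decide) (by decide)
    (by decide) (by rw [h02]; omega) (by rw [h12]; omega) hC.xa hC.xc hC.xb hC.yb hC.yc hC.ya hne

end Pool.Agent.H94.ODG.XL1
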